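import Mathlib
import Pool.Agent.Helper407.PLFinal

set_option autoImplicit false

namespace Pool.Agent.Results.MP_d83035_al.PSolubleSubgroups

/-- `H` has a series `1 = N 0 ≤ N 1 ≤ ... ≤ N (2 n + 1) = H` of normal subgroups whose factors are
alternately of order prime to `p` (`n + 1` of them) and of `p`-power order (`n` of them). -/
def HasPSeries (p n : ℕ) (H : Type) [Group H] : Prop :=
  ∃ N : ℕ → Subgroup H, N 0 = ⊥ ∧ N (2 * n + 1) = ⊤ ∧ (∀ i, (N i).Normal) ∧
    (∀ i, N i ≤ N (i + 1)) ∧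
    (∀ i ≤ n, ((N (2 * i)).relIndex (N (2 * i + 1))).Coprime p) ∧
    (∀ i < n, ∃ k : ℕ, (N (2 * i + 1)).relIndex (N (2 * i + 2)) = p ^ k)

/-- `p`-soluble finite groups -/
def IsPSoluble (p : ℕ) (H : Type) [Group H] : Prop := ∃ n, HasPSeries p n H

/-- the `p`-length of a `p`-soluble group: the least number of `p`-factors in a series as above -/
noncomputable def pLength (p : ℕ) (H : Type) [Group H] : ℕ := sInf {n | HasPSeries p n H}

section Aux
open Pool.Agent.Helper407.PL

lemma toRLp {p n : ℕ} {H : Type} [Group H] [Finite H] (h : HasPSeries p n H) :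
    RLp p n (⊥ : Subgroup H) ⊤ := by
  obtain ⟨N, h0, h1, h2, h3, h4, h5⟩ := h
  have key : ∀ i, ∀ x ∈ N (i + 1), x ^ ((N i).relIndex (N (i + 1))) ∈ N i := by
    intro i x hx
    have hn := h2 i
    have e3 := Subgroup.pow_index_mem ((N i).subgroupOf (N (i + 1))) (⟨x, hx⟩ : N (i + 1))
    rw [Subgroup.mem_subgroupOf] at e3
    simpa [Subgroup.relIndex] using e3
  refine ⟨N, h0, h1, fun i => ?_, h3, fun i hi x hx => ?_, fun i hi x hx => ?_⟩
  · have := h2 i
    exact Inv.of_normal ⊤ (N i)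
  · exact ⟨_, h4 i hi, key _ x hx⟩
  · obtain ⟨k, hk⟩ := h5 i hi
    exact ⟨k, by rw [← hk]; exact key _ x hx⟩

lemma ofRLp {p n : ℕ} {H : Type} [Group H] [Finite H] (hp : p.Prime)
    (h : RLp p n (⊥ : Subgroup H) ⊤) : HasPSeries p n H := by
  have hpf : Fact p.Prime := ⟨hp⟩
  obtain ⟨S, s0, s1, s2, s3, s4, s5⟩ := h
  have hnorm : ∀ i, (S i).Normal := fun i => ⟨fun x hx g => s2 i g trivial x hx⟩
  have hsub : ∀ i, ((S i).subgroupOf (S (i + 1))).Normal := fun i => by
    have := hnorm i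
    infer_instance
  exact ⟨S, s0, s1, hnorm, s3, fun i hi => PF'_index (hsub _) (s4 i hi),
    fun i hi => PF_index (hsub _) (s5 i hi)⟩

end Aux

open Pool.Agent.Helper407.PL in
/-- **Theorem.** Let `p` be a prime and `w` a nontrivial group word. There is a number `N` such
that in every finite group `G` whose Sylow `p`-subgroups satisfy the law `w`, every `p`-soluble
subgroup has `p`-length at most `N`. -/
theorem result : ∀ (p : ℕ), p.Prime → ∀ w : FreeGroup ℕ, w ≠ 1 →
    ∃ N : ℕ, ∀ (G : Type) [Group G] [Finite G],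
      (∀ (P : Sylow p G) (f : ℕ → ↥(P : Subgroup G)), FreeGroup.lift f w = 1) →
      ∀ H : Subgroup G, IsPSoluble p H → HasPSeries p (pLength p H) H ∧ pLength p H ≤ N := by
  intro p hp w hw
  have hpf : Fact p.Prime := ⟨hp⟩
  obtain ⟨N, hN⟩ := main_bound (p := p) w hw
  refine ⟨N, fun G _ _ hG H hH => ?_⟩
  have h1 : ∀ f : FreeGroup ℕ →* H, IsPGroup p f.range → f w = 1 := by
    intro f hf
    have h2 : IsPGroup p ((H.subtype.comp f).range) := by
      rw [MonoidHom.range_comp]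
      exact hf.map _
    obtain ⟨P, hP⟩ := h2.exists_le_sylow
    let g : ℕ → ↥(P : Subgroup G) := fun j => ⟨f (FreeGroup.of j), hP ⟨_, rfl⟩⟩
    have h3 : ((P : Subgroup G).subtype.comp (FreeGroup.lift g)) = H.subtype.comp f := by
      ext j
      simp [g]
    have h4 := congrArg (fun φ : FreeGroup ℕ →* G => φ w) h3
    simp only [MonoidHom.comp_apply, hG P g, map_one] at h4
    exact Subtype.ext (by simpa using h4.symm)
  obtain ⟨m, hm⟩ := hH
  have h5 := ofRLp hp (hN H h1 ⟨m, toRLp hm⟩)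
  exact ⟨Nat.sInf_mem (s := {n | HasPSeries p n H}) ⟨_, h5⟩, Nat.sInf_le h5⟩

end Pool.Agent.Results.MP_d83035_al.PSolubleSubgroups
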